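import Mathlib

/-!
# Chromatic gap three in `K₅`-free graphs of every cochromatic number

For every `k ≥ 5` there is a finite `K₅`-free graph with cochromatic number `k`
and chromatic number `k + 3`.
-/

namespace Pool.Agent.Results.MP_a38e10_co.GapThree

open Finset

/-- A vertex set is homogeneous if it is a clique or an independent set. -/
def IsHomogeneous {V : Type} (G : SimpleGraph V) (S : Set V) : Prop :=
  G.IsClique S ∨ G.IsIndepSet S

/-- `V(G)` can be partitioned into at most `n` homogeneous sets. -/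
def HomPartition {V : Type} (G : SimpleGraph V) (n : ℕ) : Prop :=
  ∃ f : V → Fin n, ∀ i, IsHomogeneous G (f ⁻¹' {i})

/-- The cochromatic number. -/
noncomputable def cochromaticNumber {V : Type} (G : SimpleGraph V) : ℕ :=
  sInf {n | HomPartition G n}

/-! ## The sparse blow-up -/

/-- a triangle-free system over `T` -/
structure Sys {τ : Type} (T : SimpleGraph τ) (W : Type) where
  G : SimpleGraph W
  lab : W → τ
  hom : ∀ x y, G.Adj x y → T.Adj (lab x) (lab y)
  tf : ∀ x y z, G.Adj x y → G.Adj y z → G.Adj x z → False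

/-- the amalgam -/
def amal {τ : Type} {T : SimpleGraph τ} {W : Type} (P : Sys T W) (t : τ) (N : ℕ) :
    Sys T (Fin N ⊕ ((W ↪ Fin N) × W)) where
  G :=
    { Adj := fun p q =>
        match p, q with
        | .inl _, .inl _ => False
        | .inl y, .inr (e, w) => P.lab w ≠ t ∧ ∃ x, P.lab x = t ∧ e x = y ∧ P.G.Adj x w
        | .inr (e, w), .inl y => P.lab w ≠ t ∧ ∃ x, P.lab x = t ∧ e x = y ∧ P.G.Adj x w
        | .inr (e, w), .inr (e', w') =>
            e = e' ∧ P.lab w ≠ t ∧ P.lab w' ≠ t ∧ P.G.Adj w w'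
      symm := ⟨by
        intro p q h
        rcases p with y | ⟨e, w⟩ <;> rcases q with y' | ⟨e', w'⟩
        · exact h
        · exact h
        · exact h
        · exact ⟨h.1.symm, h.2.2.1, h.2.1, h.2.2.2.symm⟩⟩
      loopless := ⟨by
        intro p h
        rcases p with y | ⟨e, w⟩
        · exact h
        · exact P.G.loopless.irrefl _ h.2.2.2⟩ }
  lab := fun p =>
    match p with
    | .inl _ => t
    | .inr (_, w) => P.lab w
  hom := by
    intro p q h
    rcases p with y | ⟨e, w⟩ <;> rcases q with y' | ⟨e', w'⟩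
    · exact h.elim
    · obtain ⟨h1, x, hx, h2, h3⟩ := h
      have := P.hom _ _ h3
      rw [hx] at this
      exact this
    · obtain ⟨h1, x, hx, h2, h3⟩ := h
      have := P.hom _ _ h3
      rw [hx] at this
      exact this.symm
    · exact P.hom _ _ h.2.2.2
  tf := by
    intro p q r h1 h2 h3
    rcases p with y | ⟨e, w⟩ <;> rcases q with y' | ⟨e', w'⟩ <;> rcases r with y'' | ⟨e'', w''⟩
    · exact h1
    · exact h1
    · exact h3
    · obtain ⟨a1, x, hx, a2, a3⟩ := h1
      obtain ⟨b1, x', hx', b2, b3⟩ := h3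
      obtain ⟨c1, c2, c3, c4⟩ := h2
      subst c1
      have : x = x' := e'.injective (by rw [a2, b2])
      subst this
      exact P.tf _ _ _ a3 c4 b3
    · exact h2
    · obtain ⟨a1, x, hx, a2, a3⟩ := h1
      obtain ⟨b1, x', hx', b2, b3⟩ := h2
      obtain ⟨c1, c2, c3, c4⟩ := h3
      subst c1
      have : x = x' := e.injective (by rw [a2, b2])
      subst this
      exact P.tf _ _ _ a3 c4 b3
    · obtain ⟨a1, x, hx, a2, a3⟩ := h2
      obtain ⟨b1, x', hx', b2, b3⟩ := h3
      obtain ⟨c1, c2, c3, c4⟩ := h1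
      subst c1
      have : x = x' := e.injective (by rw [a2, b2])
      subst this
      exact P.tf _ _ _ b3 c4 a3
    · exact P.tf _ _ _ h1.2.2.2 h2.2.2.2 h3.2.2.2

theorem step {τ : Type} {T : SimpleGraph τ} {W : Type} [Fintype W] (P : Sys T W) (t : τ) (n : ℕ) :
    ∃ (W' : Type) (_ : Fintype W') (P' : Sys T W'), ∀ f : W' → Fin n,
      ∃ g : W → W', (∀ x, P'.lab (g x) = P.lab x) ∧ (∀ x y, P.G.Adj x y → P'.G.Adj (g x) (g y)) ∧
        ∀ x y, P.lab x = t → P.lab y = t → f (g x) = f (g y) := by
  classical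
  refine ⟨Fin (n * Fintype.card W + 1) ⊕ ((W ↪ Fin (n * Fintype.card W + 1)) × W), inferInstance,
    amal P t _, ?_⟩
  intro f
  -- pigeonhole
  obtain ⟨c, hc⟩ : ∃ c : Fin n, Fintype.card W ≤
      (Finset.univ.filter fun y : Fin (n * Fintype.card W + 1) => f (.inl y) = c).card := by
    by_contra hcon
    push Not at hcon
    have hsum : (Finset.univ : Finset (Fin (n * Fintype.card W + 1))).card =
        ∑ c : Fin n, (Finset.univ.filter fun y : Fin (n * Fintype.card W + 1) =>
          f (.inl y) = c).card :=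
      Finset.card_eq_sum_card_fiberwise (f := fun y => f (.inl y)) (t := Finset.univ)
        (fun _ _ => Finset.mem_coe.2 (Finset.mem_univ _))
    have hle : ∑ c : Fin n, (Finset.univ.filter fun y : Fin (n * Fintype.card W + 1) =>
          f (.inl y) = c).card ≤ ∑ c : Fin n, Fintype.card W :=
      Finset.sum_le_sum fun c _ => (hcon c).le
    simp at hsum hle
    omega
  obtain ⟨e⟩ : Nonempty (W ↪ {y // y ∈ Finset.univ.filter
      fun y : Fin (n * Fintype.card W + 1) => f (.inl y) = c}) := by
    apply Function.Embedding.nonempty_of_card_le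
    rw [Fintype.card_coe]
    exact hc
  let e' : W ↪ Fin (n * Fintype.card W + 1) := e.trans ⟨Subtype.val, Subtype.val_injective⟩
  have he' : ∀ w, f (.inl (e' w)) = c := fun w => by
    have := (e w).2
    simp only [Finset.mem_filter, Finset.mem_univ, true_and] at this
    exact this
  refine ⟨fun w => if P.lab w = t then .inl (e' w) else .inr (e', w), ?_, ?_, ?_⟩
  · intro x
    by_cases hx : P.lab x = t
    · simp only [hx, if_true]; rfl
    · simp only [hx, if_false]; rfl
  · intro x y hxy
    by_cases hx : P.lab x = t <;> by_cases hy : P.lab y = t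
    · exact (T.ne_of_adj (P.hom _ _ hxy) (hx.trans hy.symm)).elim
    · simp only [hx, hy, if_true, if_false]
      exact ⟨hy, x, hx, rfl, hxy⟩
    · simp only [hx, hy, if_true, if_false]
      exact ⟨hx, y, hy, rfl, hxy.symm⟩
    · simp only [hx, hy, if_false]
      exact ⟨rfl, hx, hy, hxy⟩
  · intro x y hx hy
    simp only [hx, hy, if_true, he']

theorem steps {τ : Type} {T : SimpleGraph τ} (n : ℕ) (S : Finset τ) :
    ∀ {W : Type} [Fintype W] (P : Sys T W),
    ∃ (W' : Type) (_ : Fintype W') (P' : Sys T W'), ∀ f : W' → Fin n,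
      ∃ g : W → W', (∀ x, P'.lab (g x) = P.lab x) ∧ (∀ x y, P.G.Adj x y → P'.G.Adj (g x) (g y)) ∧
        ∀ x y, P.lab x ∈ S → P.lab x = P.lab y → f (g x) = f (g y) := by
  classical
  induction S using Finset.induction_on with
  | empty =>
    intro W _ P
    exact ⟨W, inferInstance, P, fun f => ⟨id, fun _ => rfl, fun _ _ h => h,
      fun x y h => by simp at h⟩⟩
  | insert t S ht ih =>
    intro W _ P
    obtain ⟨W1, _, P1, h1⟩ := ih P
    obtain ⟨W2, i2, P2, h2⟩ := step P1 t n
    refine ⟨W2, i2, P2, fun f => ?_⟩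
    obtain ⟨g2, a2, b2, c2⟩ := h2 f
    obtain ⟨g1, a1, b1, c1⟩ := h1 (f ∘ g2)
    refine ⟨g2 ∘ g1, ?_, ?_, ?_⟩
    · intro x; simp [a2, a1]
    · intro x y h; exact b2 _ _ (b1 _ _ h)
    · intro x y hx hxy
      rcases Finset.mem_insert.1 hx with hx | hx
      · exact c2 _ _ (by rw [a1, hx]) (by rw [a1, ← hxy, hx])
      · exact c1 x y hx hxy

/-- The sparse blow-up: a triangle-free graph over `T` all of whose proper `n`-colourings
induce a proper `n`-colouring of `T`. -/
theorem sparse {τ : Type} [Fintype τ] (T : SimpleGraph τ) (n : ℕ) :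
    ∃ (W : Type) (_ : Fintype W) (P : Sys T W), ∀ f : W → Fin n,
      (∀ x y, P.G.Adj x y → f x ≠ f y) →
      ∃ c : τ → Fin n, (∀ t, ∃ w, P.lab w = t ∧ f w = c t) ∧ ∀ t t', T.Adj t t' → c t ≠ c t' := by
  classical
  let P0 : Sys T (τ × τ) :=
    { G :=
        { Adj := fun p q => q.1 = p.2 ∧ q.2 = p.1 ∧ T.Adj p.1 q.1
          symm := ⟨fun p q h => ⟨h.2.1.symm, h.1.symm, h.2.2.symm⟩⟩
          loopless := ⟨fun p h => T.loopless.irrefl _ h.2.2⟩ }
      lab := Prod.fst
      hom := fun p q h => h.2.2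
      tf := fun p q r h1 h2 h3 => by
        have : p.1 = r.1 := by rw [h2.1, h1.2.1]
        exact T.ne_of_adj h3.2.2 this }
  obtain ⟨W, i, P, h⟩ := steps n (Finset.univ : Finset τ) P0
  refine ⟨W, i, P, fun f hf => ?_⟩
  obtain ⟨g, a, b, c⟩ := h f
  refine ⟨fun t => f (g (t, t)), fun t => ⟨g (t, t), a _, rfl⟩, fun t t' htt => ?_⟩
  have h1 : f (g (t, t)) = f (g (t, t')) := c _ _ (Finset.mem_univ _) rfl
  have h2 : f (g (t', t')) = f (g (t', t)) := c _ _ (Finset.mem_univ _) rfl
  have h3 : P0.G.Adj (t, t') (t', t) := ⟨rfl, rfl, htt⟩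
  show f (g (t, t)) ≠ f (g (t', t'))
  rw [h1, h2]
  exact hf _ _ (b _ _ h3)


/-! ## The twelve-vertex core -/

/-- adjacency table of a triangle-free graph on `12` vertices without independent `5`-sets -/
def hadj (a b : ℕ) : Bool := Nat.testBit 8545525127083515460292798442349607239829640 (12 * a + b)

/-- the core: the complement of that graph -/
def U : SimpleGraph (Fin 12) where
  Adj a b := a ≠ b ∧ hadj a b = false
  symm := ⟨by
    have h : ∀ a b : Fin 12, hadj a b = hadj b a := by decide +kernel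
    intro a b hab
    exact ⟨hab.1.symm, by rw [h]; exact hab.2⟩⟩
  loopless := ⟨fun a h => h.1 rfl⟩

instance : DecidableRel U.Adj := fun a b => inferInstanceAs (Decidable (a ≠ b ∧ _))

theorem not_adj_of_hadj {a b : Fin 12} (h : hadj a b = true) : ¬ U.Adj a b := by
  intro h'
  rw [h'.2] at h
  exact Bool.noConfusion h

/-- `X` contains no clique with `k` vertices. -/
def CF (k : ℕ) (X : Finset (Fin 12)) : Prop :=
  ∀ S : Finset (Fin 12), S ⊆ X → S.card = k → ¬ U.IsClique (S : Set (Fin 12))

theorem CF.anti {k : ℕ} {X Y : Finset (Fin 12)} (h : CF k Y) (hXY : X ⊆ Y) : CF k X :=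
  fun S hS hc => h S (hS.trans hXY) hc

theorem CF.insert {k : ℕ} {X : Finset (Fin 12)} (h : CF k X) (a : Fin 12) :
    CF (k + 1) (insert a X) := by
  classical
  intro S hS hc hcl
  obtain ⟨S', hS', hS'c⟩ : ∃ S' ⊆ S.erase a, S'.card = k := by
    apply Finset.exists_subset_card_eq
    have := Finset.pred_card_le_card_erase (s := S) (a := a)
    omega
  refine h S' ?_ hS'c (hcl.subset ?_)
  · intro x hx
    have hx' := hS' hx
    have := hS (Finset.mem_of_mem_erase hx')
    rcases Finset.mem_insert.1 this with h1 | h1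
    · exact (Finset.ne_of_mem_erase hx' h1).elim
    · exact h1
  · intro x hx
    exact Finset.mem_coe.2 (Finset.mem_of_mem_erase (hS' (Finset.mem_coe.1 hx)))

theorem CF.succ {k : ℕ} {X : Finset (Fin 12)} (h : CF k X) : CF (k + 1) X :=
  (h.insert 0).anti (Finset.subset_insert _ _)

theorem CF.pair {k : ℕ} {X : Finset (Fin 12)} (h : CF k X) {a b : Fin 12}
    (hab : hadj a b = true) : CF (k + 1) (Insert.insert a (Insert.insert b X)) := by
  classical
  intro S hS hc hcl
  by_cases ha : a ∈ S
  · by_cases hb : b ∈ S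
    · by_cases hne : a = b
      · subst hne
        refine (h.insert a) S ?_ hc hcl
        simpa using hS
      · exact not_adj_of_hadj hab (hcl (Finset.mem_coe.2 ha) (Finset.mem_coe.2 hb) hne)
    · refine (h.insert a) S ?_ hc hcl
      intro x hx
      have := hS hx
      simp only [Finset.mem_insert] at this ⊢
      rcases this with h1 | h1 | h1
      · exact Or.inl h1
      · subst h1; exact (hb hx).elim
      · exact Or.inr h1
  · refine (h.insert b) S ?_ hc hcl
    intro x hx
    have := hS hx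
    simp only [Finset.mem_insert] at this ⊢
    rcases this with h1 | h1 | h1
    · subst h1; exact (ha hx).elim
    · exact Or.inl h1
    · exact Or.inr h1

theorem CF.empty : CF 1 ∅ := by
  intro S hS hc
  have : S = ∅ := Finset.subset_empty.1 hS
  subst this
  simp at hc

/-- Every vertex set of the core with at most `2` vertices has no triangle, etc. -/
theorem CF.of_card {k : ℕ} {X : Finset (Fin 12)} (h : X.card < k) : CF k X := by
  intro S hS hc
  have := Finset.card_le_card hS
  omega

/-- The hypotheses on the colours of the core and on the representatives of the blow-up. -/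
structure Ctx (a : ℕ) (Γ : Type) where
  φ : Fin 12 → Γ
  c : Fin a → Finset (Fin 12) → Γ
  hU : ∀ i X u, CF 4 X → u ∈ X → c i X ≠ φ u
  hT : ∀ i j X Y, i ≠ j → CF 4 X → CF 4 Y → CF 3 (X ∩ Y) → c i X ≠ c j Y

namespace Ctx

variable {a : ℕ} {Γ : Type} (K : Ctx a Γ)

/-- the free colours -/
def R (γ : Γ) : Prop := ∀ i, K.c i ∅ ≠ γ

theorem inj : Function.Injective fun i => K.c i ∅ := by
  intro i j h
  by_contra hij
  exact K.hT i j ∅ ∅ hij (CF.of_card (by simp)) (CF.of_card (by simp)) (CF.of_card (by simp)) h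

theorem card_R [Fintype Γ] [DecidableEq Γ] (hΓ : Fintype.card Γ = a + 5) (S : Finset Γ)
    (hS : ∀ γ ∈ S, K.R γ) : S.card ≤ 5 := by
  classical
  have h1 : (Finset.univ.image fun i => K.c i ∅).card = a := by
    rw [Finset.card_image_of_injective _ K.inj]; simp
  have h2 : Disjoint S (Finset.univ.image fun i => K.c i ∅) := by
    rw [Finset.disjoint_left]
    intro γ hγ hγ'
    obtain ⟨i, _, hi⟩ := Finset.mem_image.1 hγ'
    exact hS γ hγ i hi
  have h3 := Finset.card_union_of_disjoint h2
  have h4 := Finset.card_le_univ (S ∪ Finset.univ.image fun i => K.c i ∅)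
  omega

theorem kill [Fintype Γ] [DecidableEq Γ] (hΓ : Fintype.card Γ = a + 5)
    (T V : Finset (Fin 12)) (hTi : Set.InjOn K.φ T) (hVi : Set.InjOn K.φ V)
    (hTR : ∀ x ∈ T, K.R (K.φ x)) (hVR : ∀ x ∈ V, ¬ K.R (K.φ x))
    (hcard : 6 ≤ T.card + V.card) (hT3 : V.card ≤ 1 ∨ CF 3 T)
    (hV4 : ∀ v ∈ V, CF 4 (insert v T)) : False := by
  classical
  have hI : ∀ x : Fin 12, ¬ K.R (K.φ x) → ∃ i, K.c i ∅ = K.φ x := by
    intro x hx
    simpa [R] using hx
  choose ι hι using hI
  let f : {x // x ∈ V} → Γ := fun v => K.c (ι v.1 (hVR v.1 v.2)) (insert v.1 T)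
  have hfR : ∀ v, K.R (f v) := by
    intro v j hj
    by_cases hij : j = ι v.1 (hVR v.1 v.2)
    · subst hij
      have h1 := K.hU (ι v.1 (hVR v.1 v.2)) (insert v.1 T) v.1 (hV4 _ v.2)
        (Finset.mem_insert_self _ _)
      rw [hι] at hj
      exact h1 hj.symm
    · exact K.hT j _ ∅ _ hij (CF.of_card (by simp)) (hV4 _ v.2) (CF.of_card (by simp)) hj
  have hfT : ∀ v, ∀ t ∈ T, f v ≠ K.φ t := by
    intro v t ht
    exact K.hU _ _ _ (hV4 _ v.2) (Finset.mem_insert_of_mem ht)
  have hfi : Function.Injective f := by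
    intro v w hvw
    by_contra hne
    have hne' : v.1 ≠ w.1 := fun h => hne (Subtype.ext h)
    rcases hT3 with hT3 | hT3
    · exact hne' (Finset.card_le_one.1 hT3 _ v.2 _ w.2)
    · have hφ : K.φ v.1 ≠ K.φ w.1 := fun h => hne' (hVi (Finset.mem_coe.2 v.2)
        (Finset.mem_coe.2 w.2) h)
      have hι' : ι v.1 (hVR v.1 v.2) ≠ ι w.1 (hVR w.1 w.2) := by
        intro h
        apply hφ
        rw [← hι v.1 (hVR v.1 v.2), ← hι w.1 (hVR w.1 w.2), h]
      refine K.hT _ _ _ _ hι' (hV4 _ v.2) (hV4 _ w.2) (hT3.anti ?_) hvw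
      intro x hx
      obtain ⟨h1, h2⟩ := Finset.mem_inter.1 hx
      rcases Finset.mem_insert.1 h1 with h1 | h1
      · rcases Finset.mem_insert.1 h2 with h2 | h2
        · exact (hne' (h1.symm.trans h2)).elim
        · exact h2
      · exact h1
  have h1 : (Finset.univ.image f).card = V.card := by
    rw [Finset.card_image_of_injective _ hfi]; simp
  have h2 : (T.image K.φ).card = T.card := Finset.card_image_of_injOn hTi
  have h3 : Disjoint (Finset.univ.image f) (T.image K.φ) := by
    rw [Finset.disjoint_left]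
    intro γ hγ hγ'
    obtain ⟨v, _, hv⟩ := Finset.mem_image.1 hγ
    obtain ⟨t, ht, ht'⟩ := Finset.mem_image.1 hγ'
    exact hfT v t ht (hv.trans ht'.symm)
  have h4 := Finset.card_union_of_disjoint h3
  have h5 := K.card_R hΓ (Finset.univ.image f ∪ T.image K.φ) (by
    intro γ hγ
    rcases Finset.mem_union.1 hγ with hγ | hγ
    · obtain ⟨v, _, hv⟩ := Finset.mem_image.1 hγ
      rw [← hv]; exact hfR v
    · obtain ⟨t, ht, ht'⟩ := Finset.mem_image.1 hγ
      rw [← ht']; exact hTR t ht)
  omega

end Ctx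


/-! ## The finite search -/

/-- two classes are linked if some pair of members is non-adjacent in the core -/
def cadj (A B : List (Fin 12)) : Bool := A.any fun a => B.any fun b => hadj a b

def rem1 (A : List (Fin 12)) : List (List (Fin 12)) → List (List (List (Fin 12)))
  | [] => []
  | B :: L => (if cadj A B then [L] else []) ++ (rem1 A L).map (B :: ·)

def prs : List (List (Fin 12)) → List (List (List (Fin 12)))
  | [] => []
  | A :: L => rem1 A L ++ (prs L).map (A :: ·)

def mt : ℕ → List (List (Fin 12)) → Bool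
  | 0, _ => true
  | k + 1, L => (prs L).any (mt k)

def ext (v : Fin 12) : List (List (Fin 12)) → List (List (List (Fin 12)))
  | [] => []
  | A :: L => (if A.all fun a => hadj v a then [(v :: A) :: L] else []) ++
      (ext v L).map (A :: ·)

def killed (I R : List (List (Fin 12))) : Bool :=
  Nat.ble 6 R.length || Nat.ble 6 I.length || (Nat.ble 5 I.length && Nat.ble 1 R.length) ||
  (Nat.ble 4 I.length && Nat.ble 2 R.length) ||
  (Nat.ble 3 I.length && (prs R).any fun L => Nat.ble 1 L.length) ||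
  (Nat.ble 2 I.length && mt 2 R) || I.any fun A => (rem1 A R).any (mt 2)

def search : List (Fin 12) → List (List (Fin 12)) → List (List (Fin 12)) → Bool
  | [], I, R => killed I R
  | v :: vs, I, R => killed I R ||
      ((ext v I).all (fun I' => search vs I' R) && (ext v R).all (fun R' => search vs I R') &&
        search vs ([v] :: I) R && search vs I ([v] :: R))

theorem search_true : search [11, 6, 3, 1, 4, 7, 2, 0, 5, 8, 9, 10] [] [] = true := by
  decide +kernel


structure Good {Γ : Type} (φ : Fin 12 → Γ) (P : Γ → Prop) (L : List (List (Fin 12))) : Prop where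
  ne : ∀ A ∈ L, A ≠ []
  mono : ∀ A ∈ L, ∀ a ∈ A, ∀ b ∈ A, φ a = φ b
  pr : ∀ A ∈ L, ∀ a ∈ A, P (φ a)
  pw : L.Pairwise fun A B => ∀ a ∈ A, ∀ b ∈ B, φ a ≠ φ b

theorem Good.perm {Γ : Type} {φ : Fin 12 → Γ} {P : Γ → Prop} {L L' : List (List (Fin 12))}
    (h : Good φ P L) (hp : L.Perm L') : Good φ P L' where
  ne := fun A hA => h.ne A (hp.mem_iff.2 hA)
  mono := fun A hA => h.mono A (hp.mem_iff.2 hA)
  pr := fun A hA => h.pr A (hp.mem_iff.2 hA)
  pw := (hp.pairwise_iff (fun hab a ha b hb => (hab b hb a ha).symm)).1 h.pw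

theorem Good.tail {Γ : Type} {φ : Fin 12 → Γ} {P : Γ → Prop} {A : List (Fin 12)}
    {L : List (List (Fin 12))} (h : Good φ P (A :: L)) : Good φ P L where
  ne := fun B hB => h.ne B (List.mem_cons_of_mem _ hB)
  mono := fun B hB => h.mono B (List.mem_cons_of_mem _ hB)
  pr := fun B hB => h.pr B (List.mem_cons_of_mem _ hB)
  pw := (List.pairwise_cons.1 h.pw).2

theorem rem1_spec {A : List (Fin 12)} : ∀ {L L' : List (List (Fin 12))}, L' ∈ rem1 A L →
    ∃ B, cadj A B = true ∧ L.Perm (B :: L')
  | [], L', h => by simp [rem1] at h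
  | B :: L, L', h => by
    simp only [rem1, List.mem_append, List.mem_map] at h
    rcases h with h | ⟨L'', h, rfl⟩
    · by_cases hc : cadj A B = true
      · simp only [hc, if_true, List.mem_singleton] at h
        subst h
        exact ⟨B, hc, List.Perm.refl _⟩
      · simp [hc] at h
    · obtain ⟨C, hC, hp⟩ := rem1_spec h
      exact ⟨C, hC, (hp.cons B).trans (List.Perm.swap C B L'')⟩

theorem prs_spec : ∀ {L L' : List (List (Fin 12))}, L' ∈ prs L →
    ∃ A B, cadj A B = true ∧ L.Perm (A :: B :: L')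
  | [], L', h => by simp [prs] at h
  | A :: L, L', h => by
    simp only [prs, List.mem_append, List.mem_map] at h
    rcases h with h | ⟨L'', h, rfl⟩
    · obtain ⟨B, hB, hp⟩ := rem1_spec h
      exact ⟨A, B, hB, hp.cons A⟩
    · obtain ⟨B, C, hC, hp⟩ := prs_spec h
      refine ⟨B, C, hC, (hp.cons A).trans ?_⟩
      exact (List.Perm.swap B A _).trans ((List.Perm.swap C A _).cons B)

theorem cadj_spec {A B : List (Fin 12)} (h : cadj A B = true) :
    ∃ a ∈ A, ∃ b ∈ B, hadj a b = true := by
  simpa [cadj] using h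

theorem Good.reps {Γ : Type} {φ : Fin 12 → Γ} {P : Γ → Prop} : ∀ {L : List (List (Fin 12))},
    Good φ P L → ∀ n, n ≤ L.length → ∃ T : Finset (Fin 12), T.card = n ∧ Set.InjOn φ T ∧
      ∀ t ∈ T, ∃ A ∈ L, t ∈ A
  | _, _, 0, _ => ⟨∅, by simp, by simp, by simp⟩
  | [], _, n + 1, h => by simp at h
  | A :: L, hG, n + 1, h => by
    obtain ⟨T, h1, h2, h3⟩ := hG.tail.reps n (by simpa using h)
    obtain ⟨a, ha⟩ := List.exists_mem_of_ne_nil A (hG.ne A (List.mem_cons_self ..))
    have hpw := (List.pairwise_cons.1 hG.pw).1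
    have key : ∀ t ∈ T, φ a ≠ φ t := by
      intro t ht
      obtain ⟨B, hB, htB⟩ := h3 t ht
      exact hpw B hB a ha t htB
    have haT : a ∉ T := fun h => key a h rfl
    refine ⟨insert a T, ?_, ?_, ?_⟩
    · rw [Finset.card_insert_of_notMem haT, h1]
    · rw [Finset.coe_insert, Set.injOn_insert (by simpa using haT)]
      refine ⟨h2, ?_⟩
      rintro ⟨t, ht, hta⟩
      exact key t ht hta.symm
    · intro t ht
      rcases Finset.mem_insert.1 ht with rfl | ht
      · exact ⟨A, List.mem_cons_self .., ha⟩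
      · obtain ⟨B, hB, htB⟩ := h3 t ht
        exact ⟨B, List.mem_cons_of_mem _ hB, htB⟩

theorem pair_insert {Γ : Type} {φ : Fin 12 → Γ} {T : Finset (Fin 12)} {a b : Fin 12}
    (hT : Set.InjOn φ T) (hab : φ a ≠ φ b) (ha : ∀ t ∈ T, φ a ≠ φ t) (hb : ∀ t ∈ T, φ b ≠ φ t) :
    (insert a (insert b T)).card = T.card + 2 ∧
      Set.InjOn φ ((insert a (insert b T) : Finset (Fin 12)) : Set (Fin 12)) := by
  have hbT : b ∉ T := fun h => hb b h rfl
  have haT : a ∉ insert b T := by
    intro h
    rcases Finset.mem_insert.1 h with h | h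
    · exact hab (by rw [h])
    · exact ha a h rfl
  constructor
  · rw [Finset.card_insert_of_notMem haT, Finset.card_insert_of_notMem hbT]
  · rw [Finset.coe_insert, Set.injOn_insert (by exact_mod_cast haT), Finset.coe_insert,
      Set.injOn_insert (by exact_mod_cast hbT)]
    refine ⟨⟨hT, ?_⟩, ?_⟩
    · rintro ⟨t, ht, h⟩
      exact hb t ht h.symm
    · rintro ⟨t, ht, h⟩
      rcases ht with rfl | ht
      · exact hab h.symm
      · exact ha t ht h.symm

theorem mt_spec {Γ : Type} {φ : Fin 12 → Γ} {P : Γ → Prop} : ∀ (k : ℕ)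
    {L : List (List (Fin 12))}, mt k L = true → Good φ P L →
    ∃ T : Finset (Fin 12), T.card = 2 * k ∧ Set.InjOn φ T ∧ CF (k + 1) T ∧
      ∀ t ∈ T, ∃ A ∈ L, t ∈ A
  | 0, _, _, _ => ⟨∅, by simp, by simp, CF.empty, by simp⟩
  | k + 1, L, h, hG => by
    simp only [mt, List.any_eq_true] at h
    obtain ⟨L', hL', hm⟩ := h
    obtain ⟨A, B, hAB, hp⟩ := prs_spec hL'
    obtain ⟨a, ha, b, hb, hab⟩ := cadj_spec hAB
    have hG' := hG.perm hp
    obtain ⟨T, h1, h2, h3, h4⟩ := mt_spec k hm hG'.tail.tail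
    have pA := (List.pairwise_cons.1 hG'.pw).1
    have pB := (List.pairwise_cons.1 hG'.tail.pw).1
    have hab' : φ a ≠ φ b := pA B (List.mem_cons_self ..) a ha b hb
    have ka : ∀ t ∈ T, φ a ≠ φ t := by
      intro t ht
      obtain ⟨C, hC, htC⟩ := h4 t ht
      exact pA C (List.mem_cons_of_mem _ hC) a ha t htC
    have kb : ∀ t ∈ T, φ b ≠ φ t := by
      intro t ht
      obtain ⟨C, hC, htC⟩ := h4 t ht
      exact pB C hC b hb t htC
    obtain ⟨q1, q2⟩ := pair_insert h2 hab' ka kb
    refine ⟨insert a (insert b T), by rw [q1, h1]; ring, q2, h3.pair hab, ?_⟩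
    intro t ht
    simp only [Finset.mem_insert] at ht
    rcases ht with rfl | rfl | ht
    · exact ⟨A, hp.mem_iff.2 (List.mem_cons_self ..), ha⟩
    · exact ⟨B, hp.mem_iff.2 (List.mem_cons_of_mem _ (List.mem_cons_self ..)), hb⟩
    · obtain ⟨C, hC, htC⟩ := h4 t ht
      exact ⟨C, hp.mem_iff.2 (List.mem_cons_of_mem _ (List.mem_cons_of_mem _ hC)), htC⟩

theorem killed_sound {a : ℕ} {Γ : Type} [Fintype Γ] [DecidableEq Γ] (K : Ctx a Γ)
    (hΓ : Fintype.card Γ = a + 5) {I R : List (List (Fin 12))}
    (hI : Good K.φ (fun γ => ¬ K.R γ) I) (hR : Good K.φ K.R R) (h : killed I R = true) :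
    False := by
  classical
  have RP : ∀ {T : Finset (Fin 12)}, (∀ t ∈ T, ∃ A ∈ R, t ∈ A) → ∀ t ∈ T, K.R (K.φ t) := by
    intro T hT t ht
    obtain ⟨A, hA, htA⟩ := hT t ht
    exact hR.pr A hA t htA
  have IP : ∀ {T : Finset (Fin 12)}, (∀ t ∈ T, ∃ A ∈ I, t ∈ A) → ∀ t ∈ T, ¬ K.R (K.φ t) := by
    intro T hT t ht
    obtain ⟨A, hA, htA⟩ := hT t ht
    exact hI.pr A hA t htA
  simp only [killed, Bool.or_eq_true, Bool.and_eq_true, Nat.ble_eq, List.any_eq_true] at h
  rcases h with ((((((h | h) | ⟨h, h'⟩) | ⟨h, h'⟩) | ⟨h, L', hL', h'⟩) | ⟨h, h'⟩) | ⟨A, hA, L', hL', h'⟩)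
  · obtain ⟨T, h1, h2, h3⟩ := hR.reps 6 h
    exact K.kill hΓ T ∅ h2 (by simp) (RP h3) (by simp) (by simp [h1]) (by simp) (by simp)
  · obtain ⟨V, h1, h2, h3⟩ := hI.reps 6 h
    refine K.kill hΓ ∅ V (by simp) h2 (by simp) (IP h3) (by simp [h1]) (Or.inr ?_) ?_
    · exact CF.of_card (by simp)
    · intro v _; exact CF.of_card (by simp)
  · obtain ⟨V, h1, h2, h3⟩ := hI.reps 5 h
    obtain ⟨T, g1, g2, g3⟩ := hR.reps 1 h'
    refine K.kill hΓ T V g2 h2 (RP g3) (IP h3) (by omega) (Or.inr ?_) ?_
    · exact CF.of_card (by omega)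
    · intro v _
      apply CF.of_card
      have := Finset.card_insert_le v T
      omega
  · obtain ⟨V, h1, h2, h3⟩ := hI.reps 4 h
    obtain ⟨T, g1, g2, g3⟩ := hR.reps 2 h'
    refine K.kill hΓ T V g2 h2 (RP g3) (IP h3) (by omega) (Or.inr ?_) ?_
    · exact CF.of_card (by omega)
    · intro v _
      apply CF.of_card
      have := Finset.card_insert_le v T
      omega
  · obtain ⟨V, h1, h2, h3⟩ := hI.reps 3 h
    obtain ⟨A, B, hAB, hp⟩ := prs_spec hL'
    obtain ⟨x, hx, y, hy, hxy⟩ := cadj_spec hAB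
    have hG' := hR.perm hp
    obtain ⟨T, g1, g2, g3⟩ := hG'.tail.tail.reps 1 h'
    have pA := (List.pairwise_cons.1 hG'.pw).1
    have pB := (List.pairwise_cons.1 hG'.tail.pw).1
    have hab' : K.φ x ≠ K.φ y := pA B (List.mem_cons_self ..) x hx y hy
    have ka : ∀ t ∈ T, K.φ x ≠ K.φ t := by
      intro t ht
      obtain ⟨C, hC, htC⟩ := g3 t ht
      exact pA C (List.mem_cons_of_mem _ hC) x hx t htC
    have kb : ∀ t ∈ T, K.φ y ≠ K.φ t := by
      intro t ht
      obtain ⟨C, hC, htC⟩ := g3 t ht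
      exact pB C hC y hy t htC
    obtain ⟨q1, q2⟩ := pair_insert g2 hab' ka kb
    have hCF : CF 3 (insert x (insert y T)) := (CF.of_card (by omega)).pair hxy
    refine K.kill hΓ _ V q2 h2 (RP ?_) (IP h3) (by omega) (Or.inr hCF) (fun v _ => hCF.insert v)
    intro t ht
    simp only [Finset.mem_insert] at ht
    rcases ht with rfl | rfl | ht
    · exact ⟨A, hp.mem_iff.2 (List.mem_cons_self ..), hx⟩
    · exact ⟨B, hp.mem_iff.2 (List.mem_cons_of_mem _ (List.mem_cons_self ..)), hy⟩
    · obtain ⟨C, hC, htC⟩ := g3 t ht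
      exact ⟨C, hp.mem_iff.2 (List.mem_cons_of_mem _ (List.mem_cons_of_mem _ hC)), htC⟩
  · obtain ⟨V, h1, h2, h3⟩ := hI.reps 2 h
    obtain ⟨T, g1, g2, g3, g4⟩ := mt_spec 2 h' hR
    exact K.kill hΓ T V g2 h2 (RP g4) (IP h3) (by omega) (Or.inr g3) (fun v _ => g3.insert v)
  · obtain ⟨B, hAB, hp⟩ := rem1_spec hL'
    obtain ⟨x, hx, y, hy, hxy⟩ := cadj_spec hAB
    have hG' := hR.perm hp
    obtain ⟨T, g1, g2, g3, g4⟩ := mt_spec 2 h' hG'.tail
    have pB := (List.pairwise_cons.1 hG'.pw).1
    have kb : ∀ t ∈ T, K.φ y ≠ K.φ t := by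
      intro t ht
      obtain ⟨C, hC, htC⟩ := g4 t ht
      exact pB C hC y hy t htC
    have hyT : y ∉ T := fun h => kb y h rfl
    have hinj : Set.InjOn K.φ ((insert y T : Finset (Fin 12)) : Set (Fin 12)) := by
      rw [Finset.coe_insert, Set.injOn_insert (by exact_mod_cast hyT)]
      refine ⟨g2, ?_⟩
      rintro ⟨t, ht, h⟩
      exact kb t ht h.symm
    refine K.kill hΓ (insert y T) {x} hinj (by simp) (RP ?_) ?_ ?_ (Or.inl (by simp)) ?_
    · intro t ht
      rcases Finset.mem_insert.1 ht with rfl | ht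
      · exact ⟨B, hp.mem_iff.2 (List.mem_cons_self ..), hy⟩
      · obtain ⟨C, hC, htC⟩ := g4 t ht
        exact ⟨C, hp.mem_iff.2 (List.mem_cons_of_mem _ hC), htC⟩
    · intro t ht
      rw [Finset.mem_singleton] at ht
      subst ht
      exact hI.pr A hA t hx
    · rw [Finset.card_insert_of_notMem hyT, Finset.card_singleton]
      omega
    · intro v hv
      rw [Finset.mem_singleton] at hv
      subst hv
      exact g3.pair hxy

theorem ext_sound {Γ : Type} {φ : Fin 12 → Γ} {P : Γ → Prop}
    (hφ : ∀ x y, U.Adj x y → φ x ≠ φ y) (v : Fin 12) :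
    ∀ {L : List (List (Fin 12))}, Good φ P L → (∀ A ∈ L, v ∉ A) →
      (∃ A ∈ L, ∃ a ∈ A, φ v = φ a) →
      ∃ L' ∈ ext v L, Good φ P L' ∧ (∀ A' ∈ L', ∀ x ∈ A', x = v ∨ ∃ A ∈ L, x ∈ A)
  | [], _, _, h => by simp at h
  | A :: L, hG, hv, h => by
    by_cases hA : ∃ a ∈ A, φ v = φ a
    · obtain ⟨a, ha, hva⟩ := hA
      have hall : ∀ b ∈ A, φ v = φ b := fun b hb =>
        hva.trans (hG.mono A (List.mem_cons_self ..) a ha b hb)
      have hcomp : (A.all fun a => hadj v a) = true := by
        rw [List.all_eq_true]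
        intro b hb
        by_contra hcon
        have hne : v ≠ b := by
          rintro rfl
          exact hv A (List.mem_cons_self ..) hb
        exact hφ v b ⟨hne, by simpa using hcon⟩ (hall b hb)
      refine ⟨(v :: A) :: L, ?_, ?_, ?_⟩
      · simp [ext, hcomp]
      · constructor
        · intro B hB
          rcases List.mem_cons.1 hB with rfl | hB
          · simp
          · exact hG.ne B (List.mem_cons_of_mem _ hB)
        · intro B hB
          rcases List.mem_cons.1 hB with rfl | hB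
          · intro x hx y hy
            have hx' : φ v = φ x := by
              rcases List.mem_cons.1 hx with rfl | hx
              · rfl
              · exact hall x hx
            have hy' : φ v = φ y := by
              rcases List.mem_cons.1 hy with rfl | hy
              · rfl
              · exact hall y hy
            exact hx'.symm.trans hy'
          · exact hG.mono B (List.mem_cons_of_mem _ hB)
        · intro B hB
          rcases List.mem_cons.1 hB with rfl | hB
          · intro x hx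
            rcases List.mem_cons.1 hx with rfl | hx
            · rw [hva]; exact hG.pr A (List.mem_cons_self ..) a ha
            · exact hG.pr A (List.mem_cons_self ..) x hx
          · exact hG.pr B (List.mem_cons_of_mem _ hB)
        · refine List.pairwise_cons.2 ⟨?_, hG.tail.pw⟩
          intro B hB x hx y hy
          rcases List.mem_cons.1 hx with rfl | hx
          · rw [hva]
            exact (List.pairwise_cons.1 hG.pw).1 B hB a ha y hy
          · exact (List.pairwise_cons.1 hG.pw).1 B hB x hx y hy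
      · intro A' hA' x hx
        rcases List.mem_cons.1 hA' with rfl | hA'
        · rcases List.mem_cons.1 hx with rfl | hx
          · exact Or.inl rfl
          · exact Or.inr ⟨A, List.mem_cons_self .., hx⟩
        · exact Or.inr ⟨A', List.mem_cons_of_mem _ hA', hx⟩
    · obtain ⟨L', hL', hG', hm⟩ := ext_sound hφ v hG.tail
        (fun B hB => hv B (List.mem_cons_of_mem _ hB)) (by
          obtain ⟨B, hB, b, hb, hvb⟩ := h
          rcases List.mem_cons.1 hB with rfl | hB
          · exact (hA ⟨b, hb, hvb⟩).elim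
          · exact ⟨B, hB, b, hb, hvb⟩)
      refine ⟨A :: L', ?_, ?_, ?_⟩
      · simp only [ext, List.mem_append, List.mem_map]
        exact Or.inr ⟨L', hL', rfl⟩
      · constructor
        · intro B hB
          rcases List.mem_cons.1 hB with rfl | hB
          · exact hG.ne _ (List.mem_cons_self ..)
          · exact hG'.ne B hB
        · intro B hB
          rcases List.mem_cons.1 hB with rfl | hB
          · exact hG.mono _ (List.mem_cons_self ..)
          · exact hG'.mono B hB
        · intro B hB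
          rcases List.mem_cons.1 hB with rfl | hB
          · exact hG.pr _ (List.mem_cons_self ..)
          · exact hG'.pr B hB
        · refine List.pairwise_cons.2 ⟨?_, hG'.pw⟩
          intro B hB x hx y hy hxy
          rcases hm B hB y hy with rfl | ⟨C, hC, hyC⟩
          · exact hA ⟨x, hx, hxy.symm⟩
          · exact (List.pairwise_cons.1 hG.pw).1 C hC x hx y hyC hxy
      · intro A' hA' x hx
        rcases List.mem_cons.1 hA' with rfl | hA'
        · exact Or.inr ⟨_, List.mem_cons_self .., hx⟩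
        · rcases hm A' hA' x hx with h1 | ⟨C, hC, hxC⟩
          · exact Or.inl h1
          · exact Or.inr ⟨C, List.mem_cons_of_mem _ hC, hxC⟩

theorem Good.cons_new {Γ : Type} {φ : Fin 12 → Γ} {P : Γ → Prop} {v : Fin 12}
    {L : List (List (Fin 12))} (hG : Good φ P L) (hP : P (φ v))
    (h : ¬ ∃ A ∈ L, ∃ a ∈ A, φ v = φ a) : Good φ P ([v] :: L) where
  ne := by
    intro B hB
    rcases List.mem_cons.1 hB with rfl | hB
    · simp
    · exact hG.ne B hB
  mono := by
    intro B hB
    rcases List.mem_cons.1 hB with rfl | hB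
    · intro x hx y hy
      rw [List.mem_singleton.1 hx, List.mem_singleton.1 hy]
    · exact hG.mono B hB
  pr := by
    intro B hB
    rcases List.mem_cons.1 hB with rfl | hB
    · intro x hx
      rw [List.mem_singleton.1 hx]; exact hP
    · exact hG.pr B hB
  pw := by
    refine List.pairwise_cons.2 ⟨?_, hG.pw⟩
    intro B hB x hx y hy hxy
    rw [List.mem_singleton.1 hx] at hxy
    exact h ⟨B, hB, y, hy, hxy⟩

theorem search_sound {a : ℕ} {Γ : Type} [Fintype Γ] [DecidableEq Γ] (K : Ctx a Γ)
    (hΓ : Fintype.card Γ = a + 5) (hφ : ∀ x y, U.Adj x y → K.φ x ≠ K.φ y) :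
    ∀ (vs : List (Fin 12)) (I R : List (List (Fin 12))), vs.Nodup →
      (∀ A ∈ I, ∀ x ∈ A, x ∉ vs) → (∀ A ∈ R, ∀ x ∈ A, x ∉ vs) →
      Good K.φ (fun γ => ¬ K.R γ) I → Good K.φ K.R R → search vs I R = true → False
  | [], I, R, _, _, _, hI, hR, h => killed_sound K hΓ hI hR h
  | v :: vs, I, R, hnd, dI, dR, hI, hR, h => by
    classical
    simp only [search, Bool.or_eq_true, Bool.and_eq_true, List.all_eq_true] at h
    rcases h with h | ⟨⟨⟨h1, h2⟩, h3⟩, h4⟩
    · exact killed_sound K hΓ hI hR h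
    obtain ⟨hv, hnd'⟩ := List.nodup_cons.1 hnd
    have dI' : ∀ A ∈ I, ∀ x ∈ A, x ∉ vs := fun A hA x hx h => dI A hA x hx (List.mem_cons_of_mem _ h)
    have dR' : ∀ A ∈ R, ∀ x ∈ A, x ∉ vs := fun A hA x hx h => dR A hA x hx (List.mem_cons_of_mem _ h)
    by_cases hP : K.R (K.φ v)
    · by_cases hex : ∃ A ∈ R, ∃ a ∈ A, K.φ v = K.φ a
      · obtain ⟨R', hR', hG', hm⟩ := ext_sound hφ v hR
          (fun A hA hvA => dR A hA v hvA (List.mem_cons_self ..)) hex
        refine search_sound K hΓ hφ vs I R' hnd' dI' ?_ hI hG' (h2 R' hR')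
        intro A hA x hx
        rcases hm A hA x hx with rfl | ⟨B, hB, hxB⟩
        · exact hv
        · exact dR' B hB x hxB
      · refine search_sound K hΓ hφ vs I ([v] :: R) hnd' dI' ?_ hI (hR.cons_new hP hex) h4
        intro A hA x hx
        rcases List.mem_cons.1 hA with rfl | hA
        · rw [List.mem_singleton.1 hx]; exact hv
        · exact dR' A hA x hx
    · by_cases hex : ∃ A ∈ I, ∃ a ∈ A, K.φ v = K.φ a
      · obtain ⟨I', hI', hG', hm⟩ := ext_sound hφ v hI
          (fun A hA hvA => dI A hA v hvA (List.mem_cons_self ..)) hex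
        refine search_sound K hΓ hφ vs I' R hnd' ?_ dR' hG' hR (h1 I' hI')
        intro A hA x hx
        rcases hm A hA x hx with rfl | ⟨B, hB, hxB⟩
        · exact hv
        · exact dI' B hB x hxB
      · refine search_sound K hΓ hφ vs ([v] :: I) R hnd' ?_ dR' (hI.cons_new hP hex) hR h3
        intro A hA x hx
        rcases List.mem_cons.1 hA with rfl | hA
        · rw [List.mem_singleton.1 hx]; exact hv
        · exact dI' A hA x hx

/-- The core is not compatible with `a + 5` colours. -/
theorem no_ctx {a : ℕ} {Γ : Type} [Fintype Γ] [DecidableEq Γ] (K : Ctx a Γ)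
    (hΓ : Fintype.card Γ = a + 5) (hφ : ∀ x y, U.Adj x y → K.φ x ≠ K.φ y) : False := by
  refine search_sound K hΓ hφ [11, 6, 3, 1, 4, 7, 2, 0, 5, 8, 9, 10] [] [] (by decide)
    (by simp) (by simp) ?_ ?_ search_true
  · exact ⟨by simp, by simp, by simp, List.Pairwise.nil⟩
  · exact ⟨by simp, by simp, by simp, List.Pairwise.nil⟩


/-! ## Basic facts about the core -/

theorem U_five : ∀ a b : Fin 12, a < b → hadj a b = false → ∀ c : Fin 12, b < c →
    hadj a c = false → hadj b c = false → ∀ d : Fin 12, c < d → hadj a d = false →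
    hadj b d = false → hadj c d = false → ∀ e : Fin 12, d < e → hadj a e = false →
    hadj b e = false → hadj c e = false → hadj d e = false → False := by
  decide +kernel

theorem U_three : ∀ a b c : Fin 12, a ≠ b → a ≠ c → b ≠ c →
    hadj a b = false ∨ hadj a c = false ∨ hadj b c = false := by
  decide +kernel

theorem hadj_irrefl : ∀ a : Fin 12, hadj a a = false := by decide +kernel

theorem U_clique_le {S : Finset (Fin 12)} (h : U.IsClique (S : Set (Fin 12))) : S.card ≤ 4 := by
  by_contra hcon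
  push Not at hcon
  obtain ⟨S', hS', hc⟩ := Finset.exists_subset_card_eq (s := S) (n := 5) (by omega)
  have hmem : ∀ i, S'.orderEmbOfFin hc i ∈ S := fun i => hS' (Finset.orderEmbOfFin_mem S' hc i)
  have hlt : ∀ i j : Fin 5, i < j → S'.orderEmbOfFin hc i < S'.orderEmbOfFin hc j :=
    fun i j hij => (S'.orderEmbOfFin hc).strictMono hij
  have hna : ∀ i j : Fin 5, i < j →
      hadj (S'.orderEmbOfFin hc i) (S'.orderEmbOfFin hc j) = false := by
    intro i j hij
    have hne : S'.orderEmbOfFin hc i ≠ S'.orderEmbOfFin hc j := (hlt i j hij).ne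
    exact (h (Finset.mem_coe.2 (hmem i)) (Finset.mem_coe.2 (hmem j)) hne).2
  exact U_five _ _ (hlt 0 1 (by decide)) (hna 0 1 (by decide)) _ (hlt 1 2 (by decide))
    (hna 0 2 (by decide)) (hna 1 2 (by decide)) _ (hlt 2 3 (by decide)) (hna 0 3 (by decide))
    (hna 1 3 (by decide)) (hna 2 3 (by decide)) _ (hlt 3 4 (by decide)) (hna 0 4 (by decide))
    (hna 1 4 (by decide)) (hna 2 4 (by decide)) (hna 3 4 (by decide))

theorem U_adj_of_three {S : Finset (Fin 12)} (h : 3 ≤ S.card) : ∃ a ∈ S, ∃ b ∈ S, U.Adj a b := by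
  obtain ⟨a, ha, b, hb, c, hc, hab, hac, hbc⟩ := Finset.two_lt_card.1 h
  rcases U_three a b c hab hac hbc with h1 | h1 | h1
  · exact ⟨a, ha, b, hb, hab, h1⟩
  · exact ⟨a, ha, c, hc, hac, h1⟩
  · exact ⟨b, hb, c, hc, hbc, h1⟩

/-- a partition of the core into three cliques -/
def cl3 : Fin 12 → Fin 3 := ![0, 0, 1, 1, 0, 2, 0, 2, 1, 2, 2, 1]

theorem cl3_clique : ∀ x y : Fin 12, x ≠ y → cl3 x = cl3 y → U.Adj x y := by decide +kernel

/-- a `6`-colouring of the core -/
def col6 : Fin 12 → Fin 6 := ![0, 1, 1, 0, 2, 3, 3, 4, 4, 2, 5, 5]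

theorem col6_proper : ∀ x y : Fin 12, U.Adj x y → col6 x ≠ col6 y := by decide +kernel

/-! ## The reduced graph -/

/-- the reduced graph on `[a] ×` (vertex sets of the core) -/
def Tg (a : ℕ) : SimpleGraph (Fin a × Finset (Fin 12)) where
  Adj p q := p.1 ≠ q.1 ∧ CF 4 p.2 ∧ CF 4 q.2 ∧ CF 3 (p.2 ∩ q.2)
  symm := ⟨fun p q h => ⟨h.1.symm, h.2.2.1, h.2.1, by
    rw [Finset.inter_comm]; exact h.2.2.2⟩⟩
  loopless := ⟨fun p h => h.1 rfl⟩

/-- the graph -/
def Gr {a : ℕ} {W : Type} (P : Sys (Tg a) W) (M : ℕ) : SimpleGraph (Fin 12 ⊕ (Fin M × W)) where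
  Adj p q :=
    match p, q with
    | .inl u, .inl v => U.Adj u v
    | .inl u, .inr (_, w) => CF 4 (P.lab w).2 ∧ u ∈ (P.lab w).2
    | .inr (_, w), .inl u => CF 4 (P.lab w).2 ∧ u ∈ (P.lab w).2
    | .inr (j, w), .inr (j', w') => j = j' ∧ P.G.Adj w w'
  symm := ⟨by
    intro p q h
    rcases p with u | ⟨j, w⟩ <;> rcases q with v | ⟨j', w'⟩
    · exact (SimpleGraph.Adj.symm (G := U) h)
    · exact h
    · exact h
    · exact ⟨h.1.symm, h.2.symm⟩⟩
  loopless := ⟨by
    intro p h
    rcases p with u | ⟨j, w⟩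
    · exact h.1 rfl
    · exact P.G.loopless.irrefl _ h.2⟩

theorem Gr_cliqueFree {a : ℕ} {W : Type} (P : Sys (Tg a) W) (M : ℕ) :
    (Gr P M).CliqueFree 5 := by
  classical
  intro S hS
  have hcl := hS.isClique
  have hcard := hS.card_eq
  have hsum : S.toLeft.card + S.toRight.card = S.card := Finset.card_toLeft_add_card_toRight
  have hL : U.IsClique (S.toLeft : Set (Fin 12)) := by
    intro x hx y hy hxy
    exact hcl (by simpa using hx) (by simpa using hy) (by simpa using hxy)
  have hRadj : ∀ p ∈ S.toRight, ∀ q ∈ S.toRight, p ≠ q → P.G.Adj p.2 q.2 := by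
    intro p hp q hq hpq
    have := hcl (x := .inr p) (y := .inr q) (by simpa using hp) (by simpa using hq)
      (by simpa using hpq)
    exact this.2
  have hLR : ∀ x ∈ S.toLeft, ∀ p ∈ S.toRight, CF 4 (P.lab p.2).2 ∧ x ∈ (P.lab p.2).2 := by
    intro x hx p hp
    have := hcl (x := .inl x) (y := .inr p) (by simpa using hx) (by simpa using hp)
      (by simp)
    exact this
  have hR2 : S.toRight.card ≤ 2 := by
    by_contra hcon
    push Not at hcon
    obtain ⟨p, hp, q, hq, r, hr, hpq, hpr, hqr⟩ := Finset.two_lt_card.1 hcon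
    exact P.tf _ _ _ (hRadj p hp q hq hpq) (hRadj q hq r hr hqr) (hRadj p hp r hr hpr)
  rcases Nat.lt_or_ge S.toRight.card 1 with h0 | h0
  · have := U_clique_le hL
    omega
  rcases Nat.lt_or_ge S.toRight.card 2 with h1 | h1
  · obtain ⟨p, hp⟩ := Finset.card_pos.1 h0
    have h4 : S.toLeft.card = 4 := by omega
    have hne : S.toLeft.Nonempty := Finset.card_pos.1 (by omega)
    obtain ⟨x, hx⟩ := hne
    exact (hLR x hx p hp).1 S.toLeft (fun y hy => (hLR y hy p hp).2) h4 hL
  · obtain ⟨p, hp, q, hq, hpq⟩ := Finset.one_lt_card.1 h1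
    have h3 : S.toLeft.card = 3 := by omega
    have hT := P.hom _ _ (hRadj p hp q hq hpq)
    exact hT.2.2.2 S.toLeft (fun y hy => Finset.mem_inter.2 ⟨(hLR y hy p hp).2, (hLR y hy q hq).2⟩)
      h3 hL

theorem Gr_homPartition {a : ℕ} {W : Type} (P : Sys (Tg a) W) (M : ℕ) :
    HomPartition (Gr P M) (3 + a) := by
  refine ⟨fun p => match p with
    | .inl u => Fin.castAdd a (cl3 u)
    | .inr (_, w) => Fin.natAdd 3 (P.lab w).1, ?_⟩
  intro i
  refine Fin.addCases (fun i => ?_) (fun i => ?_) i
  · left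
    rintro (u | ⟨j, w⟩) hp (v | ⟨j', w'⟩) hq hpq
    · simp only [Set.mem_preimage, Set.mem_singleton_iff, Fin.castAdd_inj] at hp hq
      exact cl3_clique u v (by simpa using hpq) (hp.trans hq.symm)
    · simp only [Set.mem_preimage, Set.mem_singleton_iff] at hq
      have := congrArg Fin.val hq
      simp at this
      omega
    · simp only [Set.mem_preimage, Set.mem_singleton_iff] at hp
      have := congrArg Fin.val hp
      simp at this
      omega
    · simp only [Set.mem_preimage, Set.mem_singleton_iff] at hp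
      have := congrArg Fin.val hp
      simp at this
      omega
  · right
    rintro (u | ⟨j, w⟩) hp (v | ⟨j', w'⟩) hq hpq hadj
    · simp only [Set.mem_preimage, Set.mem_singleton_iff] at hp
      have := congrArg Fin.val hp
      simp at this
      omega
    · simp only [Set.mem_preimage, Set.mem_singleton_iff] at hp
      have := congrArg Fin.val hp
      simp at this
      omega
    · simp only [Set.mem_preimage, Set.mem_singleton_iff] at hq
      have := congrArg Fin.val hq
      simp at this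
      omega
    · simp only [Set.mem_preimage, Set.mem_singleton_iff, Fin.natAdd_inj] at hp hq
      exact (P.hom _ _ hadj.2).1 (hp.trans hq.symm)

theorem Gr_colorable {a : ℕ} {W : Type} (P : Sys (Tg a) W) (M : ℕ) :
    (Gr P M).Colorable (a + 6) := by
  have C : (Gr P M).Coloring (Fin a ⊕ Fin 6) :=
    SimpleGraph.Coloring.mk (fun p => match p with
      | .inl u => Sum.inr (col6 u)
      | .inr (_, w) => Sum.inl (P.lab w).1) (by
        rintro (u | ⟨j, w⟩) (v | ⟨j', w'⟩) h
        · exact fun h' => col6_proper u v h (Sum.inr.inj h')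
        · exact fun h' => Sum.inr_ne_inl h'
        · exact fun h' => Sum.inl_ne_inr h'
        · exact fun h' => (P.hom _ _ h.2).1 (Sum.inl.inj h'))
  simpa using C.colorable

theorem Gr_not_colorable {a M : ℕ} {W : Type} (P : Sys (Tg a) W) (hM : 0 < M)
    (hP : ∀ f : W → Fin (a + 5), (∀ x y, P.G.Adj x y → f x ≠ f y) →
      ∃ c : Fin a × Finset (Fin 12) → Fin (a + 5), (∀ t, ∃ w, P.lab w = t ∧ f w = c t) ∧
        ∀ t t', (Tg a).Adj t t' → c t ≠ c t') :
    ¬ (Gr P M).Colorable (a + 5) := by
  rintro ⟨C⟩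
  let j : Fin M := ⟨0, hM⟩
  obtain ⟨c, h1, h2⟩ := hP (fun w => C (.inr (j, w))) (fun x y h => C.valid ⟨rfl, h⟩)
  refine no_ctx (a := a) (Γ := Fin (a + 5))
    { φ := fun u => C (.inl u)
      c := fun i X => c (i, X)
      hU := ?_
      hT := ?_ } (by simp) (fun x y h => C.valid h)
  · intro i X u hX hu
    obtain ⟨w, hw, hc⟩ := h1 (i, X)
    rw [← hc]
    have : (Gr P M).Adj (.inr (j, w)) (.inl u) := by
      refine ⟨?_, ?_⟩
      · rw [hw]; exact hX
      · rw [hw]; exact hu
    exact C.valid this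
  · intro i i' X Y hij hX hY hXY
    exact h2 _ _ ⟨hij, hX, hY, hXY⟩

theorem Gr_not_homPartition {a m : ℕ} {W : Type} (P : Sys (Tg a) W) (hm : m ≤ a + 2)
    (hP : ∀ f : W → Fin (a + 5), (∀ x y, P.G.Adj x y → f x ≠ f y) →
      ∃ c : Fin a × Finset (Fin 12) → Fin (a + 5), (∀ t, ∃ w, P.lab w = t ∧ f w = c t) ∧
        ∀ t t', (Tg a).Adj t t' → c t ≠ c t') :
    ¬ HomPartition (Gr P (a + 3)) m := by
  classical
  rintro ⟨g, hg⟩
  -- the clique classes
  let S : Finset (Fin m) := Finset.univ.filter fun i => (Gr P (a + 3)).IsClique (g ⁻¹' {i})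
  have hS : ∀ i, i ∈ S ↔ (Gr P (a + 3)).IsClique (g ⁻¹' {i}) := by simp [S]
  have hprop : ∀ p q, (Gr P (a + 3)).Adj p q → g p ∉ S → g p ≠ g q := by
    intro p q hpq hp h
    rcases hg (g p) with h1 | h1
    · exact hp ((hS _).2 h1)
    · exact h1 (by simp) (by simp [h]) (SimpleGraph.ne_of_adj _ hpq) hpq
  have hSm : S.card ≤ m := by simpa using Finset.card_le_univ S
  -- an untouched copy
  obtain ⟨j, hj⟩ : ∃ j : Fin (a + 3), ∀ w, g (.inr (j, w)) ∉ S := by
    by_contra hcon
    push Not at hcon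
    choose w hw using hcon
    have hinj : Function.Injective fun j => (⟨g (.inr (j, w j)), hw j⟩ : {i // i ∈ S}) := by
      intro j j' h
      have h' : g (.inr (j, w j)) = g (.inr (j', w j')) := congrArg Subtype.val h
      by_contra hne
      have hcl := (hS _).1 (hw j)
      have := hcl (x := .inr (j, w j)) (y := .inr (j', w j')) (by simp) (by simp [h'])
        (by simp [hne])
      exact hne this.1
    have := Fintype.card_le_of_injective _ hinj
    simp at this
    omega
  -- representatives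
  have hm5 : m ≤ a + 5 := by omega
  obtain ⟨c, h1, h2⟩ := hP (fun w => Fin.castLE hm5 (g (.inr (j, w)))) (fun x y h h' => by
    have hadj : (Gr P (a + 3)).Adj (.inr (j, x)) (.inr (j, y)) := ⟨rfl, h⟩
    exact hprop _ _ hadj (hj x) (Fin.castLE_injective hm5 h'))
  have h1' : ∀ t, ∃ γ : Fin m, c t = Fin.castLE hm5 γ ∧ γ ∉ S ∧ ∀ u, CF 4 t.2 → u ∈ t.2 →
      γ ≠ g (.inl u) := by
    intro t
    obtain ⟨w, hw, hc⟩ := h1 t
    refine ⟨g (.inr (j, w)), hc.symm, hj w, ?_⟩
    intro u hX hu
    refine hprop _ _ ?_ (hj w)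
    exact ⟨by rw [hw]; exact hX, by rw [hw]; exact hu⟩
  choose d hd1 hd2 hd3 using h1'
  have hd4 : ∀ t t', (Tg a).Adj t t' → d t ≠ d t' := by
    intro t t' h h'
    apply h2 t t' h
    rw [hd1, hd1, h']
  -- the counting bound
  have key : ∀ X : Finset (Fin 12), CF 3 X → (∀ u ∈ X, g (.inl u) ∉ S) →
      Set.InjOn (fun u => g (.inl u)) X → a + X.card + S.card ≤ m := by
    intro X hX hXS hXi
    have hX4 : CF 4 X := hX.succ
    have e1 : (Finset.univ.image fun i : Fin a => d (i, X)).card = a := by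
      rw [Finset.card_image_of_injective]
      · simp
      · intro i i' h
        by_contra hne
        exact hd4 (i, X) (i', X) ⟨hne, hX4, hX4, by simpa using hX⟩ h
    have e2 : (X.image fun u => g (.inl u)).card = X.card := Finset.card_image_of_injOn hXi
    have e3 : Disjoint (Finset.univ.image fun i : Fin a => d (i, X))
        (X.image fun u => g (.inl u)) := by
      rw [Finset.disjoint_left]
      intro γ hγ hγ'
      obtain ⟨i, _, hi⟩ := Finset.mem_image.1 hγ
      obtain ⟨u, hu, hu'⟩ := Finset.mem_image.1 hγ'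
      exact hd3 (i, X) u hX4 hu (hi.trans hu'.symm)
    have e4 : Disjoint ((Finset.univ.image fun i : Fin a => d (i, X)) ∪
        (X.image fun u => g (.inl u))) S := by
      rw [Finset.disjoint_left]
      intro γ hγ hγ'
      rcases Finset.mem_union.1 hγ with hγ | hγ
      · obtain ⟨i, _, hi⟩ := Finset.mem_image.1 hγ
        rw [← hi] at hγ'
        exact hd2 _ hγ'
      · obtain ⟨u, hu, hu'⟩ := Finset.mem_image.1 hγ
        rw [← hu'] at hγ'
        exact hXS u hu hγ'
    have e5 := Finset.card_union_of_disjoint e3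
    have e6 := Finset.card_union_of_disjoint e4
    have e7 := Finset.card_le_univ (((Finset.univ.image fun i : Fin a => d (i, X)) ∪
        (X.image fun u => g (.inl u))) ∪ S)
    rw [Fintype.card_fin] at e7
    omega
  have hbase := key ∅ (CF.of_card (by simp)) (by simp) (by simp)
  simp only [Finset.card_empty, add_zero] at hbase
  -- the covered part of the core
  have hD : (Finset.univ.filter fun u : Fin 12 => g (.inl u) ∈ S).card ≤ 4 * S.card := by
    have : (Finset.univ.filter fun u : Fin 12 => g (.inl u) ∈ S).card ≤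
        ∑ i ∈ S, ((Finset.univ.filter fun u : Fin 12 => g (.inl u) ∈ S).filter
          fun u => g (.inl u) = i).card := by
      rw [← Finset.card_eq_sum_card_fiberwise]
      intro u hu
      simpa using hu
    refine this.trans ?_
    have : ∑ i ∈ S, ((Finset.univ.filter fun u : Fin 12 => g (.inl u) ∈ S).filter
          fun u => g (.inl u) = i).card ≤ ∑ i ∈ S, 4 := by
      refine Finset.sum_le_sum fun i hi => U_clique_le ?_
      intro x hx y hy hxy
      simp only [Finset.coe_filter, Set.mem_ofPred_eq, Finset.mem_filter, Finset.mem_univ,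
        true_and] at hx hy
      exact (hS i).1 hi (x := .inl x) (y := .inl y) (by simp [hx.2]) (by simp [hy.2])
        (by simpa using hxy)
    rw [Finset.sum_const, smul_eq_mul] at this
    omega
  have hC : (Finset.univ.filter fun u : Fin 12 => g (.inl u) ∈ S).card +
      (Finset.univ.filter fun u : Fin 12 => g (.inl u) ∉ S).card = 12 := by
    have := Finset.card_filter_add_card_filter_not (s := (Finset.univ : Finset (Fin 12)))
      (fun u : Fin 12 => g (.inl u) ∈ S)
    simpa using this
  rcases Nat.lt_or_ge S.card 1 with hs | hs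
  · -- no clique classes: a proper colouring
    have hSe : S = ∅ := Finset.card_eq_zero.1 (by omega)
    refine Gr_not_colorable P (M := a + 3) (by omega) hP ?_
    refine SimpleGraph.Colorable.mono hm5 ⟨SimpleGraph.Coloring.mk g ?_⟩
    intro p q hpq
    exact hprop p q hpq (by simp [hSe])
  rcases Nat.lt_or_ge S.card 2 with hs2 | hs2
  · -- one clique class
    obtain ⟨x, hx, y, hy, hxy⟩ := U_adj_of_three
      (S := Finset.univ.filter fun u : Fin 12 => g (.inl u) ∉ S) (by omega)
    simp only [Finset.mem_filter, Finset.mem_univ, true_and] at hx hy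
    have hne : x ≠ y := hxy.1
    have hgne : g (.inl x) ≠ g (.inl y) := hprop (.inl x) (.inl y) hxy hx
    have hc2 : ({x, y} : Finset (Fin 12)).card = 2 := Finset.card_pair hne
    have := key {x, y} (CF.of_card (by omega)) (by
      intro u hu
      simp only [Finset.mem_insert, Finset.mem_singleton] at hu
      rcases hu with rfl | rfl
      · exact hx
      · exact hy) (by
      intro u hu v hv huv
      simp only [Finset.coe_insert, Finset.coe_singleton, Set.mem_insert_iff,
        Set.mem_singleton_iff] at hu hv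
      rcases hu with rfl | rfl <;> rcases hv with rfl | rfl
      · rfl
      · exact (hgne huv).elim
      · exact (hgne huv.symm).elim
      · rfl)
    omega
  · -- two clique classes
    have hpos : 0 < (Finset.univ.filter fun u : Fin 12 => g (.inl u) ∉ S).card := by omega
    obtain ⟨x, hx⟩ := Finset.card_pos.1 hpos
    simp only [Finset.mem_filter, Finset.mem_univ, true_and] at hx
    have := key {x} (CF.of_card (by simp)) (by
      intro u hu
      rw [Finset.mem_singleton] at hu
      subst hu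
      exact hx) (by simp)
    simp at this
    omega

/-- For every `k ≥ 5` there is a finite `K₅`-free graph `G` with cochromatic number `k` and
chromatic number `k + 3`. -/
theorem result : ∀ k : ℕ, 5 ≤ k → ∃ (V : Type) (_ : Fintype V) (G : SimpleGraph V),
    G.CliqueFree 5 ∧ cochromaticNumber G = k ∧ G.chromaticNumber = ((k + 3 : ℕ) : ℕ∞) := by
  classical
  intro k hk
  obtain ⟨a, rfl⟩ : ∃ a, k = 3 + a := ⟨k - 3, by omega⟩
  obtain ⟨W, _, P, hP⟩ := sparse (Tg a) (a + 5)
  refine ⟨Fin 12 ⊕ (Fin (a + 3) × W), inferInstance, Gr P (a + 3), Gr_cliqueFree P _, ?_, ?_⟩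
  · apply le_antisymm
    · exact Nat.sInf_le (Gr_homPartition P _)
    · by_contra hcon
      push Not at hcon
      have hmem : HomPartition (Gr P (a + 3)) (cochromaticNumber (Gr P (a + 3))) :=
        Nat.sInf_mem (s := {n | HomPartition (Gr P (a + 3)) n}) ⟨_, Gr_homPartition P _⟩
      exact Gr_not_homPartition P (by omega) hP hmem
  · have h1 := Gr_colorable P (a + 3)
    have h2 := Gr_not_colorable P (M := a + 3) (by omega) hP
    have h3 : 3 + a + 3 = (a + 5) + 1 := by ring
    rw [h3]
    exact (SimpleGraph.chromaticNumber_eq_iff_colorable_not_colorable).2 ⟨h1, h2⟩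

end Pool.Agent.Results.MP_a38e10_co.GapThree
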